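import Pool.Agent.Helper3.CM.RF7

namespace Pool.Agent.Results.MP_fc0732_al.DerivedOrderSq

open Pool.Agent.Helper3.CM

/-- Classification, for `p` odd, of the finite `p`-groups with derived subgroup of order `p^2` that
are both Camina and Miller: they are given by the rational functions over `F_p` without poles on the
projective line over `F_p` that have trivial stabiliser in `GL_2(F_p)`, up to `GL_2(F_p)`. -/
theorem result (p : ℕ) (hp : p.Prime) (hp2 : p ≠ 2) :
    (∀ (G : Type) [Group G] [Finite G],
      (IsPGroup p G ∧ IsCamina G ∧ IsMiller G ∧ Nat.card (commutator G) = p ^ 2) ↔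
        ∃ P : Pair p, (∀ a b c d, Pair.Rel a b c d P P → a = 1 ∧ b = 0 ∧ c = 0 ∧ d = 1) ∧
          P.Realises G) ∧
    (∀ P : Pair p, ∃ (G : Type) (_ : Group G), P.Realises G ∧
      Nat.card G = p ^ (2 * P.f.natDegree + 2)) ∧
    (∀ (P Q : Pair p) (G H : Type) [Group G] [Group H], P.Realises G → Q.Realises H →
      (Nonempty (G ≃* H) ↔ ∃ a b c d, Pair.Rel a b c d P Q)) := by
  have : Fact p.Prime := ⟨hp⟩
  exact classification hp2

end Pool.Agent.Results.MP_fc0732_al.DerivedOrderSq
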