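import Pool.Agent.Helper3.CM.Struct

namespace Pool.Agent.Results.MP_fc0732_al.LinearData

open Pool.Agent.Helper3.CM

/-- Structure of the finite `p`-groups that are both Camina and Miller (every prime `p`), up to
isomorphism, in terms of rigid linear data over the field with `p` elements. -/
theorem result (p : ℕ) (hp : p.Prime) :
    (∀ (G : Type) [Group G] [Finite G], IsPGroup p G → IsCamina G → IsMiller G →
      commutator G = Subgroup.center G ∧ commutator G = frattini G ∧
        ∀ z ∈ commutator G, z ^ p = 1) ∧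
    (∀ (G : Type) [Group G] [Finite G], (IsPGroup p G ∧ IsCamina G ∧ IsMiller G) ↔
      ∃ D : Datum p, D.IsRigid ∧ D.Realises G) ∧
    (∀ D : Datum p, ∃ (G : Type) (_ : Group G) (_ : Finite G), D.Realises G) ∧
    (∀ (D₁ D₂ : Datum p) (G₁ G₂ : Type) [Group G₁] [Group G₂], D₁.Realises G₁ → D₂.Realises G₂ →
        (Nonempty (G₁ ≃* G₂) ↔ D₁.Equivalent D₂)) := by
  have : Fact p.Prime := ⟨hp⟩
  exact structure_thm

end Pool.Agent.Results.MP_fc0732_al.LinearData
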