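import Pool.Agent.Helper79.CMC.Final

namespace Pool.Agent.Results.MP_fc0732_al.Spectrum

open Pool.Agent.Helper79.CMC

/-- For every prime `p` and all `m`, `n`: the number `N` of isomorphism classes of `p`-groups `G` that are both Camina
and Miller with `|G : G'| = p ^ m`, `|G'| = p ^ n`. It is finite; it is not zero exactly for the pairs `(m, n)` listed;
and it is bounded from above (for all `m`, `n`) and from below (for `m = 2 k`, `3 ≤ n ≤ k`). -/
theorem result (p : ℕ) (hp : p.Prime) (m n : ℕ) :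
    ∃ N : ℕ, IsCount p m n N ∧
      (0 < N ↔ (Even m ∧ 6 ≤ m ∧ 2 ≤ n ∧ 2 * n ≤ m ∧ (p = 2 → n = 2 → 10 ≤ m))) ∧
      N * ((∏ i : Fin m, (p ^ m - p ^ (i : ℕ))) * ∏ i : Fin n, (p ^ n - p ^ (i : ℕ))) ≤
        p ^ (n * (m * (m + 1) / 2)) ∧
      ∀ k : ℕ, m = 2 * k → 3 ≤ n → n ≤ k →
        p ^ ((n - 1) * k) * (p ^ ((n - 2) * (k * (k - 1) / 2)) - 1) ≤ (p - 1) * N := by
  have : Fact p.Prime := ⟨hp⟩
  exact main m n

end Pool.Agent.Results.MP_fc0732_al.Spectrum
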