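import Pool.Agent.Helper3.CM.T7

namespace Pool.Agent.Results.MP_fc0732_al.TwoGroupsDerivedFour

open Pool.Agent.Helper3.CM Pool.Agent.Helper3.CM.Two Polynomial

/-- Classification of the finite `2`-groups with derived subgroup of order `4` that are both Camina
and Miller: they are given by the squarefree polynomials without roots over the field with two
elements that have trivial stabiliser in `GL_2(F_2)`, up to `GL_2(F_2)`. -/
theorem result :
    (∀ (G : Type) [Group G] [Finite G],
      (IsPGroup 2 G ∧ IsCamina G ∧ IsMiller G ∧ Nat.card (commutator G) = 4) ↔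
        ∃ f : (ZMod 2)[X], Adm f ∧
          (∀ a b c d, Rel2 a b c d f f → a = 1 ∧ b = 0 ∧ c = 0 ∧ d = 1) ∧ Realises2 f G) ∧
    (∀ f : (ZMod 2)[X], Adm f → ∃ (G : Type) (_ : Group G), Realises2 f G ∧
      Nat.card G = 2 ^ (2 * f.natDegree + 2)) ∧
    (∀ (f g : (ZMod 2)[X]) (G H : Type) [Group G] [Group H], Adm f → Adm g → Realises2 f G →
      Realises2 g H → (Nonempty (G ≃* H) ↔ ∃ a b c d, Rel2 a b c d f g)) :=
  classification2

end Pool.Agent.Results.MP_fc0732_al.TwoGroupsDerivedFour
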